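import Mathlib
import Pool.Agent.H28.Peetre

set_option autoImplicit false

namespace Pool.Agent.Results.MP_6bb0fd_an.NotMonotone

open Polynomial Finset Pool.Agent.H28.Schur Pool.Agent.H28.Peetre

noncomputable def T₀ : ℝ[X] →ₗ[ℝ] ℝ[X] :=
  (LinearMap.mulLeft ℝ X - derivative) ∘ₗ (LinearMap.id - derivative) ∘ₗ taylor 1

lemma Q_eq (k : ℕ) :
    Qc T₀ k = C ((1 - k) / k.factorial : ℝ) * X + C (k * (k - 2) / k.factorial : ℝ) :=
  Polynomial.funext fun z => mul_left_cancel₀ (a := (k.factorial : ℝ)) (by positivity) <| by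
    rw [Qc_eval]
    rcases k with _ | k
    · simp [T₀]
    simp [T₀, taylor_apply, derivative_pow]
    field_simp
    ring

lemma inj (u : ℝ[X]) (hu : u ≠ 0) (q : ℝ[X]) (h : u * q - derivative q = 0) : q = 0 := by
  by_contra h0
  have h1 := degree_derivative_lt h0
  rw [← sub_eq_zero.1 h, degree_mul, degree_eq_natDegree hu, degree_eq_natDegree h0] at h1
  norm_cast at h1
  omega

theorem result : ∃ (T : ℝ[X] →ₗ[ℝ] ℝ[X]) (Q : ℕ → ℝ[X]),
    (∀ p : ℝ[X], T p = ∑ k ∈ range (p.natDegree + 1), Q k * derivative^[k] p) ∧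
    (∀ k, Q k ≠ 0) ∧
    (∀ p : ℝ[X], (p = 0 ∨ ∀ z : ℂ, aeval z p = 0 → z.im = 0) →
      (T p = 0 ∨ ∀ z : ℂ, aeval z (T p) = 0 → z.im = 0)) ∧
    Function.Injective T ∧ 3 ≤ Module.rank ℝ (LinearMap.range T) ∧
    (Q 1).degree < (Q 0).degree := by
  have hi : Function.Injective T₀ := (injective_iff_map_eq_zero _).2 fun p hp =>
    (taylor_eq_zero 1 p).1 (inj 1 one_ne_zero _ (by simpa using inj X X_ne_zero _ hp))
  refine ⟨T₀, Qc T₀, peetre T₀, fun k h => ?_, fun p hp => ?_, hi, rank3 T₀ (fun i => X ^ (i : ℕ))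
    (((basisMonomials ℝ).linearIndependent.comp _ Fin.val_injective).map' T₀
      (LinearMap.ker_eq_bot.2 hi) |> fun h => by
        simpa [Function.comp_def, monomial_one_right_eq_X_pow] using h), ?_⟩
  · have h0 := congrArg (coeff · 0) h
    have h1 := congrArg (coeff · 1) h
    simp [Q_eq, Nat.factorial_ne_zero, sub_eq_zero] at h0 h1
    norm_cast at h0 h1
    omega
  · have : RR (taylor 1 p) := hp.imp (fun h => by simp [h]) fun h z hz => by
      simpa using h (z + 1) (by simpa [taylor_apply, aeval_comp] using hz)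
    have := RR_cre _ (RR_one _ (-1) this)
    rwa [C_neg, C_1, neg_one_mul, ← sub_eq_add_neg] at this
  · have e : Qc T₀ 1 = C (-1) := by rw [Q_eq]; norm_num
    rw [e, Q_eq, degree_C (by norm_num)]
    simp

end Pool.Agent.Results.MP_6bb0fd_an.NotMonotone
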